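import Mathlib

/-!
Paralindelöf spaces and closed mappings.
-/

open Set Topology

namespace Pool.Agent.Q177.PL

universe u v

variable {X : Type u} {Y : Type v} [TopologicalSpace X] [TopologicalSpace Y]

/-- Every point has a neighbourhood meeting only countably many members of the family. -/
def LocallyCountable {X : Type u} [TopologicalSpace X] (𝒱 : Set (Set X)) : Prop :=
  ∀ x : X, ∃ N ∈ 𝓝 x, {V | V ∈ 𝒱 ∧ (V ∩ N).Nonempty}.Countable

/-- Every open cover has a locally countable open refinement. -/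
def Paralindelof (X : Type u) [TopologicalSpace X] : Prop :=
  ∀ 𝒰 : Set (Set X), (∀ U ∈ 𝒰, IsOpen U) → ⋃₀ 𝒰 = univ →
    ∃ 𝒱 : Set (Set X), (∀ V ∈ 𝒱, IsOpen V) ∧ ⋃₀ 𝒱 = univ ∧ (∀ V ∈ 𝒱, ∃ U ∈ 𝒰, V ⊆ U) ∧
      LocallyCountable 𝒱

/-- indexed version -/
def LC {X : Type u} [TopologicalSpace X] {ι : Type*} (s : ι → Set X) : Prop :=
  ∀ x : X, ∃ N : Set X, IsOpen N ∧ x ∈ N ∧ {i | (s i ∩ N).Nonempty}.Countable

theorem lc_of {𝒱 : Set (Set X)} (h : LocallyCountable 𝒱) : LC (fun V : 𝒱 => (V : Set X)) := by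
  intro x
  obtain ⟨N, hN, hc⟩ := h x
  obtain ⟨M, hMN, hM, hx⟩ := mem_nhds_iff.1 hN
  refine ⟨M, hM, hx, ?_⟩
  have : {i : 𝒱 | ((i : Set X) ∩ M).Nonempty} ⊆ Subtype.val ⁻¹' {V | V ∈ 𝒱 ∧ (V ∩ N).Nonempty} := by
    intro V hV
    exact ⟨V.2, hV.mono (inter_subset_inter_right _ hMN)⟩
  exact (hc.preimage Subtype.val_injective).mono this

theorem to_lc {ι : Type*} {s : ι → Set X} (h : LC s) : LocallyCountable (range s) := by
  intro x
  obtain ⟨N, hN, hx, hc⟩ := h x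
  refine ⟨N, hN.mem_nhds hx, ?_⟩
  refine (hc.image s).mono ?_
  rintro V ⟨⟨i, rfl⟩, hV⟩
  exact ⟨i, hV, rfl⟩

/-- A locally countable family in a paralindelöf space has a locally countable open expansion. -/
theorem expand (hX : Paralindelof X) {ι : Type*} {s : ι → Set X} (hs : LC s) :
    ∃ O : ι → Set X, (∀ i, IsOpen (O i)) ∧ (∀ i, s i ⊆ O i) ∧ LC O := by
  choose N hNo hxN hNc using hs
  obtain ⟨𝒲, hWo, hWc, hWr, hWl⟩ := hX (range N) (by rintro _ ⟨x, rfl⟩; exact hNo x)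
    (by
      refine eq_univ_of_forall fun x => ?_
      exact mem_sUnion.2 ⟨N x, ⟨x, rfl⟩, hxN x⟩)
  refine ⟨fun i => ⋃₀ {W | W ∈ 𝒲 ∧ (s i ∩ W).Nonempty}, fun i => isOpen_sUnion fun W hW => hWo W hW.1,
    fun i x hx => ?_, fun x => ?_⟩
  · have : x ∈ ⋃₀ 𝒲 := hWc ▸ mem_univ x
    obtain ⟨W, hW, hxW⟩ := mem_sUnion.1 this
    exact mem_sUnion.2 ⟨W, ⟨hW, x, hx, hxW⟩, hxW⟩
  · obtain ⟨M, hM, hMc⟩ := hWl x
    obtain ⟨M', hMM, hM', hxM⟩ := mem_nhds_iff.1 hM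
    refine ⟨M', hM', hxM, ?_⟩
    have hsub : {i | ((⋃₀ {W | W ∈ 𝒲 ∧ (s i ∩ W).Nonempty}) ∩ M').Nonempty} ⊆
        ⋃ W ∈ {V | V ∈ 𝒲 ∧ (V ∩ M).Nonempty}, {i | (s i ∩ W).Nonempty} := by
      rintro i ⟨y, hy, hyM⟩
      obtain ⟨W, ⟨hW, hne⟩, hyW⟩ := mem_sUnion.1 hy
      exact mem_biUnion (show W ∈ {V | V ∈ 𝒲 ∧ (V ∩ M).Nonempty} from ⟨hW, y, hyW, hMM hyM⟩) hne
    refine (hMc.biUnion fun W hW => ?_).mono hsub
    obtain ⟨U, ⟨z, rfl⟩, hWU⟩ := hWr W hW.1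
    exact (hNc z).mono fun i hi => hi.mono (inter_subset_inter_right _ hWU)

/-- Around a Lindelöf set. -/
theorem around {ι : Type*} {s : ι → Set X} (hs : LC s) {K : Set X} (hK : IsLindelof K) :
    ∃ N : Set X, IsOpen N ∧ K ⊆ N ∧ {i | (s i ∩ N).Nonempty}.Countable := by
  choose N hNo hxN hNc using hs
  obtain ⟨t, htc, hKt⟩ := hK.elim_countable_subcover N hNo (fun x _ => mem_iUnion.2 ⟨x, hxN x⟩)
  refine ⟨⋃ x ∈ t, N x, isOpen_biUnion fun x _ => hNo x, hKt, ?_⟩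
  refine (htc.biUnion fun x _ => hNc x).mono ?_
  rintro i ⟨y, hy, hyN⟩
  obtain ⟨x, hx, hyx⟩ := mem_iUnion₂.1 hyN
  exact mem_biUnion hx ⟨y, hy, hyx⟩

/-- Images of locally countable families under closed maps with Lindelöf fibres. -/
theorem image_lc {f : X → Y} (hcl : IsClosedMap f) (hL : ∀ y, IsLindelof (f ⁻¹' {y}))
    {ι : Type*} {s : ι → Set X} (hs : LC s) : LC (fun i => f '' s i) := by
  intro y
  obtain ⟨N, hN, hyN, hc⟩ := around hs (hL y)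
  refine ⟨(f '' Nᶜ)ᶜ, (hcl _ hN.isClosed_compl).isOpen_compl, ?_, ?_⟩
  · rintro ⟨x, hx, rfl⟩
    exact hx (hyN rfl)
  · refine hc.mono ?_
    rintro i ⟨_, ⟨x, hx, rfl⟩, hxN⟩
    refine ⟨x, hx, ?_⟩
    by_contra h
    exact hxN ⟨x, h, rfl⟩

theorem lindelof_fibres {f : X → Y} (hf : Continuous f) (hsurj : Function.Surjective f)
    (hcl : IsClosedMap f) (hL : ∀ y, IsLindelof (f ⁻¹' {y})) (hX : Paralindelof X) :
    Paralindelof Y := by
  intro 𝒰 hUo hUc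
  obtain ⟨𝒱, hVo, hVc, hVr, hVl⟩ := hX ((fun U => f ⁻¹' U) '' 𝒰)
    (by rintro _ ⟨U, hU, rfl⟩; exact (hUo U hU).preimage hf)
    (by
      refine eq_univ_of_forall fun x => ?_
      have : f x ∈ ⋃₀ 𝒰 := hUc ▸ mem_univ _
      obtain ⟨U, hU, hx⟩ := mem_sUnion.1 this
      exact mem_sUnion.2 ⟨f ⁻¹' U, ⟨U, hU, rfl⟩, hx⟩)
  have h1 : LC (fun V : 𝒱 => f '' (V : Set X)) := image_lc hcl hL (lc_of hVl)
  have h2 : LC (fun V : 𝒱 => f ⁻¹' (f '' (V : Set X))) := by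
    intro x
    obtain ⟨N, hN, hx, hc⟩ := h1 (f x)
    refine ⟨f ⁻¹' N, hN.preimage hf, hx, hc.mono ?_⟩
    rintro V ⟨z, hz, hzN⟩
    exact ⟨f z, hz, hzN⟩
  obtain ⟨O, hOo, hsO, hOl⟩ := expand hX h2
  have h3 : LC (fun V : 𝒱 => f '' (O V)) := image_lc hcl hL hOl
  choose U hU hVU using fun V : 𝒱 => (by
    obtain ⟨_, ⟨U, hU, rfl⟩, h⟩ := hVr V.1 V.2
    exact ⟨U, hU, h⟩ : ∃ U ∈ 𝒰, (V : Set X) ⊆ f ⁻¹' U)
  let A : 𝒱 → Set Y := fun V => (f '' (O V)ᶜ)ᶜ ∩ U V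
  have hAo : ∀ V, IsOpen (A V) := fun V =>
    ((hcl _ (hOo V).isClosed_compl).isOpen_compl).inter (hUo _ (hU V))
  refine ⟨range A, by rintro _ ⟨V, rfl⟩; exact hAo V, ?_, ?_, to_lc ?_⟩
  · refine eq_univ_of_forall fun y => ?_
    obtain ⟨x, rfl⟩ := hsurj y
    have : x ∈ ⋃₀ 𝒱 := hVc ▸ mem_univ x
    obtain ⟨V, hV, hxV⟩ := mem_sUnion.1 this
    refine mem_sUnion.2 ⟨A ⟨V, hV⟩, ⟨⟨V, hV⟩, rfl⟩, ?_, hVU ⟨V, hV⟩ hxV⟩
    rintro ⟨z, hz, hzx⟩
    exact hz (hsO ⟨V, hV⟩ ⟨x, hxV, hzx.symm⟩)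
  · rintro _ ⟨V, rfl⟩
    exact ⟨U V, hU V, inter_subset_right⟩
  · intro y
    obtain ⟨N, hN, hy, hc⟩ := h3 y
    refine ⟨N, hN, hy, hc.mono ?_⟩
    rintro V ⟨z, hz, hzN⟩
    obtain ⟨x, rfl⟩ := hsurj z
    refine ⟨f x, ⟨x, ?_, rfl⟩, hzN⟩
    by_contra h
    exact hz.1 ⟨x, h, rfl⟩

/-- Closed subspaces. -/
theorem closed_sub (hX : Paralindelof X) {C : Set X} (hC : IsClosed C) : Paralindelof C := by
  intro 𝒰 hUo hUc
  have hex : ∀ U : 𝒰, ∃ W : Set X, IsOpen W ∧ Subtype.val ⁻¹' W = (U : Set C) := by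
    intro U
    obtain ⟨W, hW, h⟩ := isOpen_induced_iff.1 (hUo U.1 U.2)
    exact ⟨W, hW, h⟩
  choose W hWo hW using hex
  obtain ⟨𝒱, hVo, hVc, hVr, hVl⟩ := hX (insert Cᶜ (range W))
    (by
      rintro V (rfl | ⟨U, rfl⟩)
      · exact hC.isOpen_compl
      · exact hWo U)
    (by
      refine eq_univ_of_forall fun x => ?_
      by_cases hx : x ∈ C
      · have : (⟨x, hx⟩ : C) ∈ ⋃₀ 𝒰 := hUc ▸ mem_univ _
        obtain ⟨U, hU, hxU⟩ := mem_sUnion.1 this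
        refine mem_sUnion.2 ⟨W ⟨U, hU⟩, Or.inr ⟨⟨U, hU⟩, rfl⟩, ?_⟩
        have : (⟨x, hx⟩ : C) ∈ (Subtype.val ⁻¹' W ⟨U, hU⟩ : Set C) := by rw [hW]; exact hxU
        exact this
      · exact mem_sUnion.2 ⟨Cᶜ, Or.inl rfl, hx⟩)
  refine ⟨(fun V => (Subtype.val ⁻¹' V : Set C)) '' {V | V ∈ 𝒱 ∧ (V ∩ C).Nonempty}, ?_, ?_, ?_, ?_⟩
  · rintro _ ⟨V, hV, rfl⟩
    exact (hVo V hV.1).preimage continuous_subtype_val
  · refine eq_univ_of_forall fun x => ?_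
    have : (x : X) ∈ ⋃₀ 𝒱 := hVc ▸ mem_univ _
    obtain ⟨V, hV, hxV⟩ := mem_sUnion.1 this
    exact mem_sUnion.2 ⟨_, ⟨V, ⟨hV, x, hxV, x.2⟩, rfl⟩, hxV⟩
  · rintro _ ⟨V, ⟨hV, hne⟩, rfl⟩
    obtain ⟨U', hU', hVU⟩ := hVr V hV
    rcases hU' with rfl | ⟨U, rfl⟩
    · obtain ⟨z, hz, hzC⟩ := hne
      exact absurd hzC (hVU hz)
    · refine ⟨U, U.2, ?_⟩
      rw [← hW U]
      exact preimage_mono hVU
  · intro x
    obtain ⟨N, hN, hc⟩ := hVl x
    refine ⟨Subtype.val ⁻¹' N, continuous_subtype_val.continuousAt.preimage_mem_nhds hN, ?_⟩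
    refine (hc.image (fun V => (Subtype.val ⁻¹' V : Set C))).mono ?_
    rintro _ ⟨⟨V, hV, rfl⟩, z, hz, hzN⟩
    exact ⟨V, ⟨hV.1, z, hz, hzN⟩, rfl⟩

/-- Closed mappings whose fibres have Lindelöf boundaries. -/
theorem lindelof_boundaries [T1Space X] {f : X → Y} (hf : Continuous f)
    (hsurj : Function.Surjective f) (hcl : IsClosedMap f)
    (hL : ∀ y, IsLindelof (frontier (f ⁻¹' {y}))) (hX : Paralindelof X) : Paralindelof Y := by
  classical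
  have hY1 : ∀ y : Y, IsClosed ({y} : Set Y) := by
    intro y
    obtain ⟨x, rfl⟩ := hsurj y
    have := hcl {x} isClosed_singleton
    rwa [image_singleton] at this
  have hfib : ∀ y, IsClosed (f ⁻¹' {y}) := fun y => (hY1 y).preimage hf
  choose g hg using hsurj
  -- the part of the fibre that is kept
  let B : Y → Set X := fun y => if (frontier (f ⁻¹' {y})).Nonempty then frontier (f ⁻¹' {y})
    else {g y}
  have hBf : ∀ y, B y ⊆ f ⁻¹' {y} := by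
    intro y
    by_cases h : (frontier (f ⁻¹' {y})).Nonempty
    · simp only [B, if_pos h]
      exact (hfib y).frontier_subset
    · simp only [B, if_neg h]
      rintro _ rfl
      exact hg y
  have hBL : ∀ y, IsLindelof (B y) := by
    intro y
    by_cases h : (frontier (f ⁻¹' {y})).Nonempty
    · simp only [B, if_pos h]; exact hL y
    · simp only [B, if_neg h]; exact isLindelof_singleton
  have hBn : ∀ y, (B y).Nonempty := by
    intro y
    by_cases h : (frontier (f ⁻¹' {y})).Nonempty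
    · simp only [B, if_pos h]; exact h
    · simp only [B, if_neg h]; exact singleton_nonempty _
  have hBo : ∀ y, IsOpen (f ⁻¹' {y} \ B y) := by
    intro y
    by_cases h : (frontier (f ⁻¹' {y})).Nonempty
    · simp only [B, if_pos h]
      rw [show f ⁻¹' {y} \ frontier (f ⁻¹' {y}) = interior (f ⁻¹' {y}) from self_sdiff_frontier _]
      exact isOpen_interior
    · simp only [B, if_neg h]
      have h1 : frontier (f ⁻¹' {y}) = ∅ := not_nonempty_iff_eq_empty.1 h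
      have h2 : IsClopen (f ⁻¹' {y}) := isClopen_iff_frontier_eq_empty.2 h1
      exact h2.2.sdiff isClosed_singleton
  let C : Set X := {x | x ∈ B (f x)}
  have hC : IsClosed C := by
    rw [← isOpen_compl_iff]
    have : Cᶜ = ⋃ y, f ⁻¹' {y} \ B y := by
      ext x
      simp only [C, mem_compl_iff, mem_ofPred_eq, mem_iUnion, mem_sdiff, mem_preimage,
        mem_singleton_iff]
      constructor
      · intro h; exact ⟨f x, rfl, h⟩
      · rintro ⟨y, hy, h⟩; rwa [hy]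
    rw [this]
    exact isOpen_iUnion hBo
  have hXC := closed_sub hX hC
  refine lindelof_fibres (X := C) (f := fun x : C => f x) (hf.comp continuous_subtype_val) ?_
    (hcl.comp hC.isClosedMap_subtype_val) ?_ hXC
  · intro y
    obtain ⟨x, hx⟩ := hBn y
    have hxy : f x = y := hBf y hx
    refine ⟨⟨x, ?_⟩, hxy⟩
    change x ∈ B (f x)
    rwa [hxy]
  · intro y
    have : (fun x : C => f x) ⁻¹' {y} = Subtype.val ⁻¹' (B y) := by
      ext x
      simp only [mem_preimage, mem_singleton_iff]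
      constructor
      · intro h
        have hx : (x : X) ∈ B (f x) := x.2
        rwa [h] at hx
      · intro h
        exact hBf y h
    rw [this]
    exact hC.isClosedEmbedding_subtypeVal.isLindelof_preimage (hBL y)

end Pool.Agent.Q177.PL
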